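import Mathlib
import Pool.Agent.Helper40_Dio.AStmt

/-!
FIN: the final theorem.
-/

set_option autoImplicit false

namespace Pool.Agent.DIO.H63

open Real

theorem euler_of_eq {a b c : ℕ} (h : DTriple a b c)
    (he : a + b + c + 2 * a * b * c = 2 * rst a b c) : Euler a b c (Nat.sqrt (a * b + 1)) := by
  obtain ⟨ha, hab, hbc, ⟨r, hr⟩, ⟨s, hs⟩, ⟨t, ht⟩⟩ := h
  have e1 : Nat.sqrt (a * b + 1) = r := by rw [hr]; exact Nat.sqrt_eq r
  have e2 : Nat.sqrt (a * c + 1) = s := by rw [hs]; exact Nat.sqrt_eq s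
  have e3 : Nat.sqrt (b * c + 1) = t := by rw [ht]; exact Nat.sqrt_eq t
  unfold rst at he
  rw [e1, e2, e3] at he
  rw [e1]
  refine ⟨ha, hab, hr.symm, ?_⟩
  have hra : a < r := by
    by_contra hcon
    push Not at hcon
    have h1 : r * r ≤ a * a := Nat.mul_le_mul hcon hcon
    have h2 : a * a ≤ a * b := Nat.mul_le_mul_left a hab.le
    omega
  zify at he hr hs ht hra ha hab hbc ⊢
  have k1 : ((a : ℤ) + b + c + 2 * a * b * c) ^ 2 =
      4 * ((a : ℤ) * b + 1) * (a * c + 1) * (b * c + 1) := by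
    rw [he, hr, hs, ht]
    ring
  have k2 : ((c : ℤ) - a - b - 2 * r) * ((c : ℤ) - a - b + 2 * r) = 0 := by
    have : (4 : ℤ) * (r * r) = 4 * (a * b + 1) := by rw [hr]
    nlinarith
  rcases mul_eq_zero.1 k2 with h1 | h1
  · linarith
  · exfalso
    linarith

theorem bdd_finite (N : ℕ) :
    {t : ℕ × ℕ × ℕ | DTriple t.1 t.2.1 t.2.2 ∧ t.2.2 ≤ N}.Finite ∧
    {t : ℕ × ℕ × ℕ | DTriple t.1 t.2.1 t.2.2 ∧ t.2.2 ≤ N}.ncard ≤ (N + 1) ^ 3 := by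
  classical
  let F : Finset (ℕ × ℕ × ℕ) := Finset.range (N + 1) ×ˢ Finset.range (N + 1) ×ˢ Finset.range (N + 1)
  have hsub : {t : ℕ × ℕ × ℕ | DTriple t.1 t.2.1 t.2.2 ∧ t.2.2 ≤ N} ⊆ (F : Set (ℕ × ℕ × ℕ)) := by
    rintro ⟨a, b, c⟩ ⟨⟨-, hab, hbc, -⟩, hc⟩
    simp only [F, Finset.mem_coe, Finset.mem_product, Finset.mem_range]
    simp only at hab hbc hc
    omega
  refine ⟨F.finite_toSet.subset hsub, ?_⟩
  have h1 := Set.ncard_le_ncard hsub F.finite_toSet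
  rw [Set.ncard_coe_finset] at h1
  refine h1.trans (le_of_eq ?_)
  simp only [F, Finset.card_product, Finset.card_range]
  ring

theorem fin_ (hT : TheStatement) (hN : NeuStatement) : FinStatement := by
  obtain ⟨C0, hC0⟩ := hT
  refine ⟨⟨C0, fun a b c h he hc => hC0 a b c _ (euler_of_eq h he) hc⟩, ?_, ?_⟩
  · intro ε hε
    obtain ⟨C, hC⟩ := hN ε hε
    refine ⟨C + ((C0 : ℝ) + 1) ^ 3, fun N hN1 => ?_⟩
    have h1 := hC N hN1
    set A : Set (ℕ × ℕ × ℕ) := {t | DTriple t.1 t.2.1 t.2.2 ∧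
      (¬ ∃ r, Euler t.1 t.2.1 t.2.2 r) ∧ t.2.2 ≤ N} with hA
    set D : Set (ℕ × ℕ × ℕ) := {t | DTriple t.1 t.2.1 t.2.2 ∧ t.2.2 ≤ C0} with hD
    have hAf : A.Finite := (bdd_finite N).1.subset (fun t ht => ⟨ht.1, ht.2.2⟩)
    have hDf : D.Finite := (bdd_finite C0).1
    have hsub : {t : ℕ × ℕ × ℕ | DTriple t.1 t.2.1 t.2.2 ∧ t.2.2 ≤ N ∧
        ¬ UniqueExt t.1 t.2.1 t.2.2} ⊆ A ∪ D := by
      rintro t ⟨h2, h3, h4⟩
      by_cases h5 : ∃ r, Euler t.1 t.2.1 t.2.2 r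
      · right
        refine ⟨h2, ?_⟩
        by_contra hcon
        push Not at hcon
        obtain ⟨r, hr⟩ := h5
        exact h4 (hC0 _ _ _ r hr hcon)
      · left
        exact ⟨h2, h5, h3⟩
    have h6 : ({t : ℕ × ℕ × ℕ | DTriple t.1 t.2.1 t.2.2 ∧ t.2.2 ≤ N ∧
        ¬ UniqueExt t.1 t.2.1 t.2.2}.ncard : ℕ) ≤ A.ncard + (C0 + 1) ^ 3 := by
      refine (Set.ncard_le_ncard hsub (hAf.union hDf)).trans ?_
      refine (Set.ncard_union_le A D).trans ?_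
      exact Nat.add_le_add_left (bdd_finite C0).2 _
    have h7 : (({t : ℕ × ℕ × ℕ | DTriple t.1 t.2.1 t.2.2 ∧ t.2.2 ≤ N ∧
        ¬ UniqueExt t.1 t.2.1 t.2.2}.ncard : ℕ) : ℝ) ≤ (A.ncard : ℝ) + ((C0 : ℝ) + 1) ^ 3 := by
      exact_mod_cast h6
    have h8 : (1 : ℝ) ≤ (N : ℝ) ^ (1 / 3 + ε) :=
      Real.one_le_rpow (by exact_mod_cast hN1) (by positivity)
    have h9 : ((C0 : ℝ) + 1) ^ 3 ≤ ((C0 : ℝ) + 1) ^ 3 * (N : ℝ) ^ (1 / 3 + ε) := by
      have : (0 : ℝ) ≤ ((C0 : ℝ) + 1) ^ 3 := by positivity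
      nlinarith
    rw [add_mul]
    linarith
  · intro N
    classical
    let f : ℕ → ℕ × ℕ × ℕ := fun k => (k - 1, k + 1, 4 * k)
    let F : Finset (ℕ × ℕ × ℕ) := (Finset.Icc 2 (N / 4)).image f
    have hsub : (F : Set (ℕ × ℕ × ℕ)) ⊆ {t | DTriple t.1 t.2.1 t.2.2 ∧ t.2.2 ≤ N} := by
      intro t ht
      simp only [F, Finset.coe_image, Set.mem_image, Finset.mem_coe, Finset.mem_Icc] at ht
      obtain ⟨k, ⟨hk2, hkN⟩, rfl⟩ := ht
      obtain ⟨j, rfl⟩ : ∃ j, k = j + 2 := ⟨k - 2, by omega⟩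
      refine ⟨⟨?_, ?_, ?_, ⟨j + 2, ?_⟩, ⟨2 * j + 3, ?_⟩, ⟨2 * j + 5, ?_⟩⟩, ?_⟩
      · simp only [f]; omega
      · simp only [f]; omega
      · simp only [f]; omega
      · simp only [f, Nat.add_succ_sub_one]
        ring
      · simp only [f, Nat.add_succ_sub_one]
        ring
      · simp only [f]
        ring
      · simp only [f]
        omega
    have hinj : Function.Injective f := by
      intro i j hij
      simp only [f, Prod.mk.injEq] at hij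
      omega
    have h1 : F.card = N / 4 + 1 - 2 := by
      rw [Finset.card_image_of_injective _ hinj, Nat.card_Icc]
    have h2 := Set.ncard_le_ncard hsub (bdd_finite N).1
    rw [Set.ncard_coe_finset, h1] at h2
    have h3 : N ≤ 4 * (N / 4 + 1 - 2) + 8 := by omega
    have h4 : N ≤ 4 * {t : ℕ × ℕ × ℕ | DTriple t.1 t.2.1 t.2.2 ∧ t.2.2 ≤ N}.ncard + 8 := by
      omega
    have h5 : (N : ℝ) ≤ 4 * ({t : ℕ × ℕ × ℕ | DTriple t.1 t.2.1 t.2.2 ∧ t.2.2 ≤ N}.ncard : ℝ) + 8 := by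
      exact_mod_cast h4
    linarith

end Pool.Agent.DIO.H63
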