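import Mathlib
import Pool.Agent.Helper40_Dio.Stmt

/-!
PAR: the choice of the parameters.
-/

set_option autoImplicit false

namespace Pool.Agent.DIO.H63

open Real

theorem cst0_pos {L k : ℕ} {B H0 : ℝ} (hL : 1 ≤ L) (hB : 0 < B) : 0 < cst0 L k B H0 := by
  have h1 : (0 : ℝ) < L := by exact_mod_cast hL
  unfold cst0
  positivity

theorem log_cst0 {L k : ℕ} {B H0 : ℝ} (hL : 1 ≤ L) (hB : 0 < B) :
    log (cst0 L k B H0) = 3 * log ((L : ℝ) + 1) + H0 + 2 * k * log (2 * L * B) := by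
  have h1 : (0 : ℝ) < L := by exact_mod_cast hL
  unfold cst0
  rw [Real.log_mul (by positivity) (by positivity), Real.log_mul (by positivity) (by positivity),
    Real.log_exp, Real.log_pow, Real.log_pow]
  push_cast
  ring

theorem pow_div_fact {y : ℝ} (hy : 0 ≤ y) {n : ℕ} (h : 2 ^ 90 * y ≤ n) :
    y ^ n / (n.factorial : ℝ) ≤ exp (-(59 * (n : ℝ))) := by
  have h1 : (2 ^ 90 * y) ^ n / (n.factorial : ℝ) ≤ exp (2 ^ 90 * y) :=
    Real.pow_div_factorial_le_exp _ (by positivity) n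
  have h2 : exp (2 ^ 90 * y) ≤ exp (n : ℝ) := Real.exp_le_exp.2 h
  have h3 : exp (60 : ℝ) ≤ 2 ^ 90 := by
    have h4 : (60 : ℝ) ≤ 90 * log 2 := by
      have := Real.log_two_gt_d9
      linarith
    calc exp (60 : ℝ) ≤ exp (90 * log 2) := Real.exp_le_exp.2 h4
      _ = 2 ^ 90 := by
        rw [mul_comm, Real.exp_mul, Real.exp_log (by norm_num)]
        norm_num
  have h5 : exp (60 * (n : ℝ)) ≤ (2 ^ 90 : ℝ) ^ n := by
    have h6 : exp (60 * (n : ℝ)) = (exp 60) ^ n := by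
      rw [← Real.exp_nat_mul]
      ring_nf
    rw [h6]
    exact pow_le_pow_left₀ (Real.exp_pos _).le h3 n
  have h7 : (0 : ℝ) < (n.factorial : ℝ) := by exact_mod_cast Nat.factorial_pos n
  have h8 : exp (60 * (n : ℝ)) * (y ^ n / (n.factorial : ℝ)) ≤ exp (n : ℝ) := by
    calc exp (60 * (n : ℝ)) * (y ^ n / (n.factorial : ℝ))
        ≤ (2 ^ 90 : ℝ) ^ n * (y ^ n / (n.factorial : ℝ)) :=
          mul_le_mul_of_nonneg_right h5 (by positivity)
      _ = (2 ^ 90 * y) ^ n / (n.factorial : ℝ) := by rw [mul_pow]; ring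
      _ ≤ exp (n : ℝ) := h1.trans h2
  have h9 : exp (-(59 * (n : ℝ))) = exp (n : ℝ) / exp (60 * (n : ℝ)) := by
    rw [← Real.exp_sub]
    ring_nf
  rw [h9, le_div_iff₀ (Real.exp_pos _), mul_comm]
  exact h8

theorem ext_of_bounds {L k h h' : ℕ} {Q B H0 : ℝ} (hL : 1 ≤ L) (hk : 1 ≤ k) (hh : 1 ≤ h)
    (hh' : 1 ≤ h') (hQ : 1 ≤ Q) (hB : 1 ≤ B)
    (h1 : log 2 + 4 * log (cst0 L k B H0) + 13 * (Q * L * h') < 59 * ((h * k : ℕ) : ℝ))
    (h2 : 2 ^ 90 * (3 * L * Q * h') ≤ ((h * k : ℕ) : ℝ))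
    (h3 : log 2 + 4 * log (cst0 L k B H0) + 10 * (Q * L * h') + 3 * L * Q * h + log (k * L) +
      k * log (4 * L * Q) + (((h * k) ^ 2 + 2 * (h * k) : ℕ) : ℝ) *
        log (2 * ((h * k : ℕ) : ℝ) * h') < B) :
    ExtIneq L k h h' Q B H0 := by
  have hL' : (0 : ℝ) < L := by exact_mod_cast hL
  have hk' : (0 : ℝ) < k := by exact_mod_cast hk
  have hhr : (0 : ℝ) < h := by exact_mod_cast hh
  have hhr' : (0 : ℝ) < h' := by exact_mod_cast hh'
  have hQ' : (0 : ℝ) < Q := by linarith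
  have hB' : (0 : ℝ) < B := by linarith
  have hn : (0 : ℝ) < ((h * k : ℕ) : ℝ) := by
    push_cast
    positivity
  have hC : 0 < cst0 L k B H0 := cst0_pos hL hB'
  set C := cst0 L k B H0 with hCdef
  set n : ℕ := h * k with hndef
  have hCe : C = exp (log C) := (Real.exp_log hC).symm
  have e1 : exp (Q * L * h') * (C * (3 * L * Q * h') ^ n * exp (3 * L * Q * h') /
      (n.factorial : ℝ)) < exp (-(3 * (log C + 3 * Q * L * h')) - log 2) := by
    have h4 := pow_div_fact (y := 3 * L * Q * h') (by positivity) h2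
    calc exp (Q * L * h') * (C * (3 * L * Q * h') ^ n * exp (3 * L * Q * h') /
          (n.factorial : ℝ))
        = exp (Q * L * h') * C * exp (3 * L * Q * h') *
          ((3 * L * Q * h') ^ n / (n.factorial : ℝ)) := by ring
      _ ≤ exp (Q * L * h') * C * exp (3 * L * Q * h') * exp (-(59 * (n : ℝ))) :=
          mul_le_mul_of_nonneg_left h4 (by positivity)
      _ = exp (Q * L * h' + log C + 3 * L * Q * h' + -(59 * (n : ℝ))) := by
          rw [Real.exp_add, Real.exp_add, Real.exp_add, Real.exp_log hC]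
      _ < exp (-(3 * (log C + 3 * Q * L * h')) - log 2) := by
          apply Real.exp_lt_exp.2
          linarith
  have e2 : exp (Q * L * h') * (C * (k * L * (4 * L * Q) ^ k * exp (3 * L * Q * h - B)) *
      (2 * (n : ℝ) * h') ^ (n ^ 2 + 2 * n)) <
        exp (-(3 * (log C + 3 * Q * L * h')) - log 2) := by
    have e3 : ((4 * L * Q : ℝ)) ^ k = exp (k * log (4 * L * Q)) := by
      rw [Real.exp_nat_mul, Real.exp_log (by positivity)]
    have e4 : (2 * (n : ℝ) * h') ^ (n ^ 2 + 2 * n) =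
        exp (((n ^ 2 + 2 * n : ℕ) : ℝ) * log (2 * (n : ℝ) * h')) := by
      rw [Real.exp_nat_mul, Real.exp_log (by positivity)]
    have e5 : (k * L : ℝ) = exp (log (k * L)) := (Real.exp_log (by positivity)).symm
    calc exp (Q * L * h') * (C * (k * L * (4 * L * Q) ^ k * exp (3 * L * Q * h - B)) *
          (2 * (n : ℝ) * h') ^ (n ^ 2 + 2 * n))
        = exp (Q * L * h' + log C + log (k * L) + k * log (4 * L * Q) + (3 * L * Q * h - B) +
            ((n ^ 2 + 2 * n : ℕ) : ℝ) * log (2 * (n : ℝ) * h')) := by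
          rw [Real.exp_add, Real.exp_add, Real.exp_add, Real.exp_add, Real.exp_add,
            Real.exp_log hC, Real.exp_log (by positivity : (0 : ℝ) < k * L), ← e3, ← e4]
          ring
      _ < exp (-(3 * (log C + 3 * Q * L * h')) - log 2) := by
          apply Real.exp_lt_exp.2
          linarith
  unfold ExtIneq
  rw [← hCdef, ← hndef]
  have e6 : exp (-(3 * (log C + 3 * Q * L * h')) - log 2) =
      exp (-(3 * (log C + 3 * Q * L * h'))) / 2 := by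
    rw [Real.exp_sub, Real.exp_log (by norm_num)]
  rw [e6] at e1 e2
  rw [mul_add]
  linarith

theorem log_le {x : ℝ} (hx : 2 ^ 100 ≤ x) : log x ≤ x / 2 ^ 49 := by
  have h0 : (0 : ℝ) < x := lt_of_lt_of_le (by norm_num) hx
  have h1 : (2 : ℝ) ^ 50 ≤ √x := by
    rw [show (2 : ℝ) ^ 50 = √((2 ^ 50) ^ 2) from (Real.sqrt_sq (by norm_num)).symm]
    apply Real.sqrt_le_sqrt
    calc ((2 : ℝ) ^ 50) ^ 2 = 2 ^ 100 := by norm_num
      _ ≤ x := hx
  have h2 : √x * √x = x := Real.mul_self_sqrt h0.le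
  have h3 : log x = 2 * log √x := by
    rw [Real.log_sqrt h0.le]
    ring
  have h4 : log √x ≤ √x - 1 := Real.log_le_sub_one_of_pos (by positivity)
  rw [h3, le_div_iff₀ (by norm_num)]
  nlinarith

theorem aux67 {x : ℝ} (hx : 0 ≤ x) : (67 : ℝ) * (x / 2 ^ 49) ≤ x / 2 ^ 42 := by
  rw [mul_div_assoc', div_le_div_iff₀ (by norm_num) (by norm_num)]
  nlinarith

theorem aux49 {x : ℝ} (hx : 0 ≤ x) : x / 2 ^ 49 ≤ x := by
  rw [div_le_iff₀ (by norm_num)]
  nlinarith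

theorem one_le_two_mul' {a b : ℝ} (ha : 1 ≤ a) (hb : 1 ≤ b) : 1 ≤ 2 * a * b := by
  nlinarith

theorem sq_add_le {n : ℝ} (hn : 1 ≤ n) : n ^ 2 + 2 * n ≤ 3 * n ^ 2 := by
  nlinarith

theorem par : ParStatement := by
  refine ⟨2 ^ 100, by norm_num, ?_⟩
  intro P Q B hP hQ hPQ hB1 hB2
  have hxN : (2 ^ 100 : ℕ) ≤ P := hP
  have hx : (2 : ℝ) ^ 100 ≤ (P : ℝ) := by exact_mod_cast hP
  have hx1 : (1 : ℝ) ≤ (P : ℝ) := le_trans (by norm_num) hx
  have hx0 : (0 : ℝ) < (P : ℝ) := lt_of_lt_of_le one_pos hx1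
  refine ⟨?_, ?_⟩
  · have h1 : 2 ^ 17 * P ^ 8 + 1 ≤ 2 ^ 18 * P ^ 8 := by
      have : 1 ≤ P ^ 8 := Nat.one_le_pow _ _ (by omega)
      omega
    calc 8 * ((2 ^ 17 * P ^ 8 + 1) ^ 2 * P) ≤ 8 * ((2 ^ 18 * P ^ 8) ^ 2 * P) := by gcongr
      _ = 2 ^ 39 * P ^ 17 := by ring
      _ ≤ P * P ^ 17 := by
          apply Nat.mul_le_mul_right
          exact le_trans (by norm_num) hxN
      _ = (P ^ 6) ^ 3 := by ring
  intro j hj
  -- basic quantities
  have hP6 : 1 ≤ P ^ 6 - 1 := by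
    have h2 : 2 ≤ P := le_trans (by norm_num) hxN
    have h1 : 2 ^ 1 ≤ P ^ 6 := (Nat.pow_le_pow_left h2 1).trans
      (Nat.pow_le_pow_right (by omega) (by norm_num))
    omega
  have hLc : ((P ^ 6 - 1 : ℕ) : ℝ) + 1 = (P : ℝ) ^ 6 := by
    rw [Nat.cast_sub (Nat.one_le_pow _ _ (by omega))]
    push_cast
    ring
  set L : ℕ := P ^ 6 - 1 with hL
  have hL0 : (0 : ℝ) < (L : ℝ) := by exact_mod_cast hP6
  have hLle : (L : ℝ) ≤ (P : ℝ) ^ 6 := by linarith only [hLc]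
  have hQx : Q ≤ (P : ℝ) / 2 ^ 100 := by
    rw [le_div_iff₀ (by norm_num), mul_comm]
    calc (2 : ℝ) ^ 100 * Q = ((2 ^ 100 : ℕ) : ℝ) * Q := by norm_num
      _ ≤ P := hPQ
  have hQ0 : 0 < Q := by linarith only [hQ]
  have hB0 : 1 ≤ B := le_trans (one_le_pow₀ hx1) hB1
  have hlx : log (P : ℝ) ≤ (P : ℝ) / 2 ^ 49 := log_le hx
  have hlx0 : 0 ≤ log (P : ℝ) := Real.log_nonneg hx1
  -- log (2LB)
  have hl2 : log (2 * L * B) ≤ (P : ℝ) / 2 ^ 42 := by
    have h1 : 2 * (L : ℝ) * B ≤ (P : ℝ) ^ 67 := by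
      have h2 : B ≤ 2 ^ 60 * (P : ℝ) ^ 60 := by
        refine hB2.trans ?_
        rw [← mul_pow]
        exact pow_le_pow_left₀ (by positivity) (by linarith only [hx1]) 60
      calc 2 * (L : ℝ) * B ≤ 2 * (P : ℝ) ^ 6 * (2 ^ 60 * (P : ℝ) ^ 60) := by
            gcongr
        _ = 2 ^ 61 * (P : ℝ) ^ 66 := by ring
        _ ≤ (P : ℝ) * (P : ℝ) ^ 66 := by
            apply mul_le_mul_of_nonneg_right _ (by positivity)
            exact le_trans (by norm_num) hx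
        _ = (P : ℝ) ^ 67 := by ring
    have h3 : log (2 * L * B) ≤ 67 * log (P : ℝ) := by
      have := Real.log_le_log (by positivity) h1
      rwa [Real.log_pow] at this
    have h4 : (67 : ℝ) * ((P : ℝ) / 2 ^ 49) ≤ (P : ℝ) / 2 ^ 42 := by
      exact aux67 hx0.le
    linarith only [h3, h4, hlx]
  have hl20 : 0 ≤ log (2 * L * B) := by
    apply Real.log_nonneg
    have : (1 : ℝ) ≤ L := by exact_mod_cast hP6
    exact one_le_two_mul' this hB0
  -- the parameters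
  set k : ℕ := 2 ^ (16 - j) * P ^ 8 with hk
  set h : ℕ := P ^ (j + 1) with hh
  set h' : ℕ := P ^ (j + 2) with hh'
  set H0 : ℝ := siz0 L (2 ^ 17 * P ^ 8) P Q B with hH0
  have hk1 : 1 ≤ k := Nat.mul_pos (by positivity) (pow_pos (by omega) _)
  have hh1 : 1 ≤ h := Nat.one_le_pow _ _ (by omega)
  have hh1' : 1 ≤ h' := Nat.one_le_pow _ _ (by omega)
  have hkr : (k : ℝ) ≤ 2 ^ 16 * (P : ℝ) ^ 8 := by
    rw [hk]
    push_cast
    apply mul_le_mul_of_nonneg_right _ (by positivity)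
    exact pow_le_pow_right₀ (by norm_num) (by omega)
  have hnr : ((h * k : ℕ) : ℝ) = 2 ^ (16 - j) * (P : ℝ) ^ (j + 9) := by
    rw [hk, hh]
    push_cast
    ring
  have hnge : (P : ℝ) ^ (j + 9) ≤ ((h * k : ℕ) : ℝ) := by
    rw [hnr]
    have : (1 : ℝ) ≤ 2 ^ (16 - j) := one_le_pow₀ (by norm_num)
    have h2 : (0 : ℝ) ≤ (P : ℝ) ^ (j + 9) := pow_nonneg hx0.le _
    exact le_mul_of_one_le_left h2 this
  have hnge9 : (P : ℝ) ^ 9 ≤ ((h * k : ℕ) : ℝ) :=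
    (pow_le_pow_right₀ hx1 (by omega)).trans hnge
  have hhr' : (h' : ℝ) = (P : ℝ) ^ (j + 2) := by
    rw [hh']
    push_cast
    ring
  have hhr : (h : ℝ) = (P : ℝ) ^ (j + 1) := by
    rw [hh]
    push_cast
    ring
  -- log cst0
  have hA : log (cst0 L k B H0) ≤ (P : ℝ) ^ 9 / 2 ^ 20 := by
    rw [log_cst0 hP6 (by linarith only [hB0]), hH0]
    unfold siz0
    rw [hLc, Real.log_pow, Real.log_pow]
    push_cast
    have h1 : 2 * (2 ^ 17 * (P : ℝ) ^ 8) * log (2 * L * B) ≤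
        2 * (2 ^ 17 * (P : ℝ) ^ 8) * ((P : ℝ) / 2 ^ 42) :=
      mul_le_mul_of_nonneg_left hl2 (by positivity)
    have h2 : 2 * (k : ℝ) * log (2 * L * B) ≤
        2 * (2 ^ 16 * (P : ℝ) ^ 8) * ((P : ℝ) / 2 ^ 42) := by
      calc 2 * (k : ℝ) * log (2 * L * B) ≤ 2 * (2 ^ 16 * (P : ℝ) ^ 8) * log (2 * L * B) := by
            apply mul_le_mul_of_nonneg_right _ hl20
            linarith only [hkr]
        _ ≤ _ := mul_le_mul_of_nonneg_left hl2 (by positivity)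
    have h3 : 3 * Q * L * P ≤ 3 * ((P : ℝ) / 2 ^ 100) * (P : ℝ) ^ 6 * P := by
      gcongr
    have h4 : (P : ℝ) * 2 ^ 100 ≤ (P : ℝ) ^ 9 := by
      calc (P : ℝ) * 2 ^ 100 ≤ (P : ℝ) * (P : ℝ) := by
            apply mul_le_mul_of_nonneg_left hx hx0.le
        _ = (P : ℝ) ^ 2 := by ring
        _ ≤ (P : ℝ) ^ 9 := pow_le_pow_right₀ hx1 (by norm_num)
    have h5 : (P : ℝ) ^ 8 ≤ (P : ℝ) ^ 9 := pow_le_pow_right₀ hx1 (by norm_num)
    have e1 : 2 * (2 ^ 17 * (P : ℝ) ^ 8) * ((P : ℝ) / 2 ^ 42) = (P : ℝ) ^ 9 / 2 ^ 24 := by ring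
    have e2 : 2 * (2 ^ 16 * (P : ℝ) ^ 8) * ((P : ℝ) / 2 ^ 42) = (P : ℝ) ^ 9 / 2 ^ 25 := by ring
    have e3 : 3 * ((P : ℝ) / 2 ^ 100) * (P : ℝ) ^ 6 * P = 3 / 2 ^ 100 * (P : ℝ) ^ 8 := by ring
    rw [e1] at h1
    rw [e2] at h2
    rw [e3] at h3
    have h6 : (3 : ℝ) / 2 ^ 100 * (P : ℝ) ^ 8 ≤ 3 / 2 ^ 100 * (P : ℝ) ^ 9 :=
      mul_le_mul_of_nonneg_left h5 (by positivity)
    have h7 : 0 ≤ (P : ℝ) ^ 9 := by positivity
    have h8 : log (P : ℝ) ≤ (P : ℝ) := by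
      exact hlx.trans (aux49 hx0.le)
    norm_num at h1 h2 h3 h4 h6 h8 ⊢
    linarith only [h1, h2, h3, h4, h6, h7, h8]
  -- QLh'
  have hQL : Q * L * h' ≤ (P : ℝ) ^ (j + 9) / 2 ^ 100 := by
    rw [hhr']
    calc Q * L * (P : ℝ) ^ (j + 2) ≤ ((P : ℝ) / 2 ^ 100) * (P : ℝ) ^ 6 * (P : ℝ) ^ (j + 2) := by
          gcongr
      _ = (P : ℝ) ^ (j + 9) / 2 ^ 100 := by ring
  have hQL0 : 0 ≤ Q * L * h' := by positivity
  have hn0 : (0 : ℝ) < ((h * k : ℕ) : ℝ) := lt_of_lt_of_le (by positivity) hnge9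
  have hx9 : (1 : ℝ) ≤ (P : ℝ) ^ 9 := one_le_pow₀ hx1
  have hlog2 : log 2 < 1 := by
    have := Real.log_two_lt_d9
    linarith only [this]
  refine ext_of_bounds hP6 hk1 hh1 hh1' hQ hB0 ?_ ?_ ?_
  · have h1 : 4 * log (cst0 L k B H0) ≤ ((h * k : ℕ) : ℝ) := by
      have : 4 * ((P : ℝ) ^ 9 / 2 ^ 20) ≤ (P : ℝ) ^ 9 := by
        have h0 : 0 ≤ (P : ℝ) ^ 9 := pow_nonneg hx0.le _
        norm_num
        linarith only [h0]
      linarith only [this, hA, hnge9]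
    have h2 : 13 * (Q * L * h') ≤ ((h * k : ℕ) : ℝ) := by
      have : 13 * ((P : ℝ) ^ (j + 9) / 2 ^ 100) ≤ (P : ℝ) ^ (j + 9) := by
        have h0 : 0 ≤ (P : ℝ) ^ (j + 9) := pow_nonneg hx0.le _
        norm_num
        linarith only [h0]
      linarith only [this, hQL, hnge]
    linarith only [h1, h2, hlog2, hx9, hnge9]
  · have : (2 : ℝ) ^ 90 * (3 * L * Q * h') ≤ (P : ℝ) ^ (j + 9) := by
      calc (2 : ℝ) ^ 90 * (3 * L * Q * h') = 3 * 2 ^ 90 * (Q * L * h') := by ring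
        _ ≤ 3 * 2 ^ 90 * ((P : ℝ) ^ (j + 9) / 2 ^ 100) :=
            mul_le_mul_of_nonneg_left hQL (by positivity)
        _ ≤ (P : ℝ) ^ (j + 9) := by
          have h0 : 0 ≤ (P : ℝ) ^ (j + 9) := pow_nonneg hx0.le _
          norm_num
          linarith only [h0]
    linarith only [this, hnge]
  · -- the second inequality
    have hx52 : (1 : ℝ) ≤ (P : ℝ) ^ 52 := one_le_pow₀ hx1
    have hpl : log (P : ℝ) ≤ (P : ℝ) / 2 ^ 49 := hlx
    have g1 : 4 * log (cst0 L k B H0) ≤ (P : ℝ) ^ 52 := by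
      have h1 : (P : ℝ) ^ 9 ≤ (P : ℝ) ^ 52 := pow_le_pow_right₀ hx1 (by norm_num)
      have h2 : 4 * ((P : ℝ) ^ 9 / 2 ^ 20) ≤ (P : ℝ) ^ 9 := by
        have h0 : 0 ≤ (P : ℝ) ^ 9 := pow_nonneg hx0.le _
        norm_num
        linarith only [h0]
      linarith only [h1, h2, hA]
    have g2 : 10 * (Q * L * h') ≤ (P : ℝ) ^ 52 := by
      have h1 : (P : ℝ) ^ (j + 9) ≤ (P : ℝ) ^ 52 := pow_le_pow_right₀ hx1 (by omega)
      have h2 : 10 * ((P : ℝ) ^ (j + 9) / 2 ^ 100) ≤ (P : ℝ) ^ (j + 9) := by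
        have h0 : 0 ≤ (P : ℝ) ^ (j + 9) := pow_nonneg hx0.le _
        norm_num
        linarith only [h0]
      linarith only [h1, h2, hQL]
    have g3 : 3 * L * Q * h ≤ (P : ℝ) ^ 52 := by
      have h1 : 3 * L * Q * h ≤ 3 * (P : ℝ) ^ 6 * ((P : ℝ) / 2 ^ 100) * (P : ℝ) ^ (j + 1) := by
        rw [hhr]
        gcongr
      have h2 : 3 * (P : ℝ) ^ 6 * ((P : ℝ) / 2 ^ 100) * (P : ℝ) ^ (j + 1) =
          3 / 2 ^ 100 * (P : ℝ) ^ (j + 8) := by ring
      have h3 : (P : ℝ) ^ (j + 8) ≤ (P : ℝ) ^ 52 := pow_le_pow_right₀ hx1 (by omega)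
      have h4 : (3 : ℝ) / 2 ^ 100 * (P : ℝ) ^ (j + 8) ≤ 1 * (P : ℝ) ^ (j + 8) := by
        apply mul_le_mul_of_nonneg_right (by norm_num) (by positivity)
      linarith only [h1, h2, h3, h4]
    have hkL : (k : ℝ) * L ≤ (P : ℝ) ^ 15 := by
      calc (k : ℝ) * L ≤ 2 ^ 16 * (P : ℝ) ^ 8 * (P : ℝ) ^ 6 := by gcongr
        _ = 2 ^ 16 * (P : ℝ) ^ 14 := by ring
        _ ≤ (P : ℝ) * (P : ℝ) ^ 14 := by
            apply mul_le_mul_of_nonneg_right _ (by positivity)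
            exact le_trans (by norm_num) hx
        _ = (P : ℝ) ^ 15 := by ring
    have hk0 : (0 : ℝ) < k := by exact_mod_cast hk1
    have g4 : log (k * L) ≤ (P : ℝ) ^ 52 := by
      have h1 : log (k * L) ≤ 15 * log (P : ℝ) := by
        have := Real.log_le_log (by positivity) hkL
        rwa [Real.log_pow] at this
      have h2 : (P : ℝ) ≤ (P : ℝ) ^ 52 := by
        calc (P : ℝ) = (P : ℝ) ^ 1 := by ring
          _ ≤ (P : ℝ) ^ 52 := pow_le_pow_right₀ hx1 (by norm_num)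
      norm_num at hpl h1 ⊢
      linarith only [h1, h2, hpl, hx0]
    have g5 : k * log (4 * L * Q) ≤ (P : ℝ) ^ 52 := by
      have h1 : 4 * (L : ℝ) * Q ≤ (P : ℝ) ^ 8 := by
        calc 4 * (L : ℝ) * Q ≤ 4 * (P : ℝ) ^ 6 * ((P : ℝ) / 2 ^ 100) := by gcongr
          _ = 4 / 2 ^ 100 * (P : ℝ) ^ 7 := by ring
          _ ≤ 1 * (P : ℝ) ^ 7 := by
              apply mul_le_mul_of_nonneg_right (by norm_num) (by positivity)
          _ = (P : ℝ) ^ 7 := by ring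
          _ ≤ (P : ℝ) ^ 8 := pow_le_pow_right₀ hx1 (by norm_num)
      have h2 : log (4 * L * Q) ≤ 8 * log (P : ℝ) := by
        have := Real.log_le_log (by positivity) h1
        rwa [Real.log_pow] at this
      have h3 : log (4 * L * Q) ≤ (P : ℝ) := by
        norm_num at hpl h2 ⊢
        linarith only [h2, hpl, hx0]
      have hkr2 : (k : ℝ) ≤ (P : ℝ) ^ 9 := by
        calc (k : ℝ) ≤ 2 ^ 16 * (P : ℝ) ^ 8 := hkr
          _ ≤ (P : ℝ) * (P : ℝ) ^ 8 := by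
              apply mul_le_mul_of_nonneg_right _ (by positivity)
              exact le_trans (by norm_num) hx
          _ = (P : ℝ) ^ 9 := by ring
      calc k * log (4 * L * Q) ≤ k * (P : ℝ) := mul_le_mul_of_nonneg_left h3 hk0.le
        _ ≤ (P : ℝ) ^ 9 * (P : ℝ) := mul_le_mul_of_nonneg_right hkr2 hx0.le
        _ = (P : ℝ) ^ 10 := by ring
        _ ≤ (P : ℝ) ^ 52 := pow_le_pow_right₀ hx1 (by norm_num)
    have hnle : ((h * k : ℕ) : ℝ) ≤ 2 ^ 16 * (P : ℝ) ^ 25 := by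
      rw [hnr]
      have h1 : (2 : ℝ) ^ (16 - j) ≤ 2 ^ 16 := pow_le_pow_right₀ (by norm_num) (by omega)
      have h2 : (P : ℝ) ^ (j + 9) ≤ (P : ℝ) ^ 25 := pow_le_pow_right₀ hx1 (by omega)
      exact mul_le_mul h1 h2 (by positivity) (by positivity)
    have hn1 : (1 : ℝ) ≤ ((h * k : ℕ) : ℝ) := hx9.trans hnge9
    have g6 : (((h * k) ^ 2 + 2 * (h * k) : ℕ) : ℝ) * log (2 * ((h * k : ℕ) : ℝ) * h') ≤
        (P : ℝ) ^ 52 := by
      have h1 : (((h * k) ^ 2 + 2 * (h * k) : ℕ) : ℝ) ≤ (P : ℝ) ^ 51 := by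
        have h2 : (((h * k) ^ 2 + 2 * (h * k) : ℕ) : ℝ) =
            ((h * k : ℕ) : ℝ) ^ 2 + 2 * ((h * k : ℕ) : ℝ) := by push_cast; ring
        rw [h2]
        calc ((h * k : ℕ) : ℝ) ^ 2 + 2 * ((h * k : ℕ) : ℝ) ≤ 3 * ((h * k : ℕ) : ℝ) ^ 2 :=
              sq_add_le hn1
          _ ≤ 3 * (2 ^ 16 * (P : ℝ) ^ 25) ^ 2 := by gcongr
          _ = 3 * 2 ^ 32 * (P : ℝ) ^ 50 := by ring
          _ ≤ (P : ℝ) * (P : ℝ) ^ 50 := by
              apply mul_le_mul_of_nonneg_right _ (by positivity)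
              exact le_trans (by norm_num) hx
          _ = (P : ℝ) ^ 51 := by ring
      have h3 : 2 * ((h * k : ℕ) : ℝ) * h' ≤ (P : ℝ) ^ 44 := by
        rw [hhr']
        calc 2 * ((h * k : ℕ) : ℝ) * (P : ℝ) ^ (j + 2) ≤
              2 * (2 ^ 16 * (P : ℝ) ^ 25) * (P : ℝ) ^ 18 := by
              have h0 : (P : ℝ) ^ (j + 2) ≤ (P : ℝ) ^ 18 := pow_le_pow_right₀ hx1 (by omega)
              exact mul_le_mul (mul_le_mul_of_nonneg_left hnle (by norm_num)) h0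
                (by positivity) (by positivity)
          _ = 2 ^ 17 * (P : ℝ) ^ 43 := by ring
          _ ≤ (P : ℝ) * (P : ℝ) ^ 43 := by
              apply mul_le_mul_of_nonneg_right _ (by positivity)
              exact le_trans (by norm_num) hx
          _ = (P : ℝ) ^ 44 := by ring
      have h4 : log (2 * ((h * k : ℕ) : ℝ) * h') ≤ 44 * log (P : ℝ) := by
        have h0 : (0 : ℝ) < h' := by rw [hhr']; positivity
        have := Real.log_le_log (by positivity) h3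
        rwa [Real.log_pow] at this
      have h5 : log (2 * ((h * k : ℕ) : ℝ) * h') ≤ (P : ℝ) := by
        norm_num at hpl h4 ⊢
        linarith only [h4, hpl, hx0]
      calc (((h * k) ^ 2 + 2 * (h * k) : ℕ) : ℝ) * log (2 * ((h * k : ℕ) : ℝ) * h')
          ≤ (((h * k) ^ 2 + 2 * (h * k) : ℕ) : ℝ) * (P : ℝ) :=
            mul_le_mul_of_nonneg_left h5 (by positivity)
        _ ≤ (P : ℝ) ^ 51 * (P : ℝ) := mul_le_mul_of_nonneg_right h1 hx0.le
        _ = (P : ℝ) ^ 52 := by ring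
    have g7 : 7 * (P : ℝ) ^ 52 < B := by
      calc 7 * (P : ℝ) ^ 52 < (P : ℝ) * (P : ℝ) ^ 52 := by
            apply mul_lt_mul_of_pos_right _ (by positivity)
            exact lt_of_lt_of_le (by norm_num) hx
        _ = (P : ℝ) ^ 53 := by ring
        _ ≤ (P : ℝ) ^ 60 := pow_le_pow_right₀ hx1 (by norm_num)
        _ ≤ B := hB1
    linarith only [g1, g2, g3, g4, g5, g6, g7, hlog2, hx52]

end Pool.Agent.DIO.H63
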